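import Pool.Agent.Helper78.DT.Goals2

/-!
# DT-TLLPA1: the size of `tt a L`; the first estimate
-/

namespace Pool.Agent.Helper51.DT

open Pool.Agent.Helper78.DT

theorem tll : TllStmt := by
  intro a
  have hC : 0 < 2 * a + 9 := by omega
  refine ⟨?_, ?_⟩
  · intro L hL
    unfold tt
    have hL0 : L ≠ 0 := by omega
    constructor
    · calc 2 ^ ((2 * a + 9) * (Nat.log 2 L / (2 * a + 9))) ≤ 2 ^ Nat.log 2 L :=
            Nat.pow_le_pow_right (by norm_num) (Nat.mul_div_le _ _)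
        _ ≤ L := Nat.pow_log_le_self 2 hL0
    · calc L < 2 ^ (Nat.log 2 L + 1) := Nat.lt_pow_succ_log_self (by norm_num) L
        _ ≤ 2 ^ ((2 * a + 9) * (Nat.log 2 L / (2 * a + 9) + 1)) :=
            Nat.pow_le_pow_right (by norm_num) (Nat.lt_mul_div_succ (Nat.log 2 L) hC)
  · intro M
    refine ⟨2 ^ ((2 * a + 9) * M), fun L hL => ?_⟩
    unfold tt
    rw [Nat.le_div_iff_mul_le hC, Nat.mul_comm]
    have hL0 : L ≠ 0 := by
      have : 0 < 2 ^ ((2 * a + 9) * M) := by positivity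
      omega
    exact Nat.le_log_of_pow_le (by norm_num) hL

theorem pa1 (h : NprStmt) : Pa1Stmt := by
  intro c
  refine ⟨64 * (c + 9) ^ 2, fun L hL => ?_⟩
  have hc : 0 < 64 * (c + 9) ^ 2 := by positivity
  have hL1 : 1 ≤ L := by omega
  have hLr : (0 : ℝ) < (L : ℝ) := by exact_mod_cast hL1
  constructor
  · have hnat : 2 ^ (2 * L) * (64 * L ^ c) ≤ 2 ^ WW c L := by
      have h1 : L ^ c ≤ 2 ^ (L * c) := by
        rw [pow_mul]
        exact Nat.pow_le_pow_left Nat.lt_two_pow_self.le c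
      have h2 : 64 ≤ 2 ^ (7 * L) := by
        calc 64 = 2 ^ 6 := by norm_num
          _ ≤ 2 ^ (7 * L) := Nat.pow_le_pow_right (by norm_num) (by omega)
      calc 2 ^ (2 * L) * (64 * L ^ c) ≤ 2 ^ (2 * L) * (2 ^ (7 * L) * 2 ^ (L * c)) :=
            Nat.mul_le_mul_left _ (Nat.mul_le_mul h2 h1)
        _ = 2 ^ WW c L := by
            unfold WW
            rw [← pow_add, ← pow_add]
            congr 1
            ring
    rw [div_le_div_iff₀ (by positivity) (by positivity), one_mul]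
    exact_mod_cast hnat
  · have hX : 0 < L ^ (c + 6) := by positivity
    obtain ⟨-, hP, -⟩ := h (L ^ (c + 6)) hX
    have hP' : L ^ (c + 6) ≤ PP c L := hP
    have hPpos : 0 < PP c L := lt_of_lt_of_le hX hP'
    have hnat : WW c L ^ 2 * L * (64 * L ^ c) ≤ PP c L := by
      have h3 : 64 * (c + 9) ^ 2 ≤ L ^ 3 := hL.trans (Nat.le_self_pow (by norm_num) L)
      calc WW c L ^ 2 * L * (64 * L ^ c) = (64 * (c + 9) ^ 2) * L ^ (c + 3) := by
            unfold WW
            ring
        _ ≤ L ^ 3 * L ^ (c + 3) := Nat.mul_le_mul_right _ h3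
        _ = L ^ (c + 6) := by ring
        _ ≤ PP c L := hP'
    have hPr : (0 : ℝ) < (PP c L : ℝ) := by exact_mod_cast hPpos
    rw [div_le_div_iff₀ hPr (by positivity), one_mul]
    exact_mod_cast hnat

end Pool.Agent.Helper51.DT
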